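import Pool.Agent.K9h16.TG.Nrm

/-!
Products of characters of polynomials in two variables: the expansion in monomials.
-/

set_option autoImplicit false

namespace Pool.Agent.K9h16.TG

open Finset Polynomial Pool.Agent.W528.HA Pool.Agent.W528.HB Pool.Agent.W528.HD

section

variable {c : ℕ} [Fact c.Prime] {L : Type} [Field L] [Fintype L]
variable {ι σ : Type} [Fintype ι] [DecidableEq ι] [Fintype σ] [DecidableEq σ]

/-- the polynomial with the index `i` -/
def FF (idx : σ → ι) (m1 m2 : σ → ℕ) (co : σ → L) (i : ι) (x y : L) : L :=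
  ∑ s with idx s = i, co s * x ^ m1 s * y ^ m2 s

/-- the exponent of the index `i` -/
def KK (idx : σ → ι) (k : σ → ℕ) (i : ι) : ℕ := ∑ s with idx s = i, k s

variable (w : MulChar L (PadicAlgCl c)) (ψ : AddChar L (PadicAlgCl c))

/-- the term belonging to `k` -/
noncomputable def Tm (idx : σ → ι) (m1 m2 : σ → ℕ) (co : σ → L) (χ : ι → MulChar L (PadicAlgCl c))
    (k : σ → ℕ) : PadicAlgCl c :=
  (∏ s, (G w ψ (k s) * w (co s) ^ k s)) *
    ((∏ i, ∑ u : L, (χ i)⁻¹ u * w u ^ KK idx k i) *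
      ((∑ x : L, w x ^ (∑ s, m1 s * k s)) * ∑ y : L, w y ^ (∑ s, m2 s * k s)))

theorem big_id (hw : Function.Injective w) (hψ : ψ.IsPrimitive) (idx : σ → ι) (m1 m2 : σ → ℕ)
    (co : σ → L) (χ : ι → MulChar L (PadicAlgCl c)) (hχ : ∀ i, χ i ≠ 1) :
    (∏ i, gaussSum (χ i)⁻¹ ψ) * ∑ x : L, ∑ y : L, ∏ i, χ i (FF idx m1 m2 co i x y)
      = ∑ k ∈ Fintype.piFinset (fun _ : σ => range (Fintype.card L)),
          Tm w ψ idx m1 m2 co χ k := by
  classical
  have h1 : ∀ x y : L, (∏ i, gaussSum (χ i)⁻¹ ψ) * ∏ i, χ i (FF idx m1 m2 co i x y)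
      = ∑ u : ι → L, ∑ k ∈ Fintype.piFinset (fun _ : σ => range (Fintype.card L)),
        (∏ s, (G w ψ (k s) * w (co s) ^ k s)) * ((∏ i, ((χ i)⁻¹ (u i) * w (u i) ^ KK idx k i)) *
        (w x ^ (∑ s, m1 s * k s) * w y ^ (∑ s, m2 s * k s))) := by
    intro x y
    rw [← prod_mul_distrib]
    have h2 : ∀ i, gaussSum (χ i)⁻¹ ψ * χ i (FF idx m1 m2 co i x y)
        = ∑ t : L, (χ i)⁻¹ t * ψ (t * FF idx m1 m2 co i x y) := fun i =>
      Pool.Agent.W800.HA.GD.one (χ i) ψ (hχ i) _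
    rw [prod_congr rfl (fun i _ => h2 i), Finset.prod_univ_sum, Fintype.piFinset_univ]
    apply sum_congr rfl
    intro u _
    rw [prod_mul_distrib]
    have h3 : ∀ i, ψ (u i * FF idx m1 m2 co i x y)
        = ∏ s with idx s = i, ψ (u (idx s) * (co s * x ^ m1 s * y ^ m2 s)) := by
      intro i
      unfold FF
      rw [mul_sum, Pool.Agent.W800.HA.GD.msum]
      refine prod_congr rfl fun s hs => ?_
      rw [mem_filter] at hs
      rw [hs.2]
    rw [prod_congr rfl fun i _ => h3 i, Finset.prod_fiberwise]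
    rw [prod_congr rfl fun s _ => psi_exp w hw ψ hψ _, Finset.prod_univ_sum, mul_sum]
    apply sum_congr rfl
    intro k _
    have h4 : ∏ s, (G w ψ (k s) * w (u (idx s) * (co s * x ^ m1 s * y ^ m2 s)) ^ k s)
        = (∏ s, (G w ψ (k s) * w (co s) ^ k s)) * ((∏ s, w (u (idx s)) ^ k s) *
          (w x ^ (∑ s, m1 s * k s) * w y ^ (∑ s, m2 s * k s))) := by
      rw [← prod_pow_eq_pow_sum, ← prod_pow_eq_pow_sum, ← prod_mul_distrib, ← prod_mul_distrib,
        ← prod_mul_distrib]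
      refine prod_congr rfl fun s _ => ?_
      rw [map_mul, map_mul, map_mul, map_pow, map_pow, mul_pow, mul_pow, mul_pow, ← pow_mul,
        ← pow_mul]
      ring
    have h5 : ∏ s, w (u (idx s)) ^ k s = ∏ i, w (u i) ^ KK idx k i := by
      rw [← Finset.prod_fiberwise (s := univ) (g := idx)]
      refine prod_congr rfl fun i _ => ?_
      unfold KK
      rw [← prod_pow_eq_pow_sum]
      refine prod_congr rfl fun s hs => ?_
      rw [mem_filter] at hs
      rw [hs.2]
    rw [h4, h5, prod_mul_distrib (f := fun i => (χ i)⁻¹ (u i))]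
    ring
  rw [mul_sum]
  rw [sum_congr rfl fun x _ => mul_sum _ _ _]
  rw [sum_congr rfl fun x _ => sum_congr rfl fun y _ => h1 x y]
  have h6 : ∀ x y : L, ∑ u : ι → L, ∑ k ∈ Fintype.piFinset (fun _ : σ => range (Fintype.card L)),
        (∏ s, (G w ψ (k s) * w (co s) ^ k s)) * ((∏ i, ((χ i)⁻¹ (u i) * w (u i) ^ KK idx k i)) *
        (w x ^ (∑ s, m1 s * k s) * w y ^ (∑ s, m2 s * k s)))
      = ∑ k ∈ Fintype.piFinset (fun _ : σ => range (Fintype.card L)),
        ((∏ s, (G w ψ (k s) * w (co s) ^ k s)) * (∏ i, ∑ u : L, (χ i)⁻¹ u * w u ^ KK idx k i)) *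
        (w x ^ (∑ s, m1 s * k s) * w y ^ (∑ s, m2 s * k s)) := by
    intro x y
    rw [sum_comm]
    refine sum_congr rfl fun k _ => ?_
    rw [Finset.prod_univ_sum, Fintype.piFinset_univ, mul_sum, sum_mul]
    refine sum_congr rfl fun u _ => ?_
    ring
  rw [sum_congr rfl fun x _ => (sum_congr rfl fun y _ => h6 x y).trans sum_comm, sum_comm]
  refine sum_congr rfl fun k _ => ?_
  unfold Tm
  rw [sum_mul_sum, ← mul_assoc, mul_sum]
  refine sum_congr rfl fun x _ => ?_
  rw [mul_sum]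

lemma norm_sum_le {α : Type} (s : Finset α) (f : α → PadicAlgCl c) (B : ℝ) (hB : 0 ≤ B)
    (h : ∀ a ∈ s, ‖f a‖ ≤ B) : ‖∑ a ∈ s, f a‖ ≤ B :=
  IsUltrametricDist.norm_sum_le_of_forall_le_of_nonneg hB h

lemma w_norm (y : L) (k : ℕ) : ‖w y ^ k‖ ≤ 1 := by
  rw [norm_pow]
  exact pow_le_one₀ (norm_nonneg _) (mulChar_norm_le w y)

variable {w ψ}

lemma sum_w_pow (hw : Function.Injective w) (A : ℕ) (hA : 0 < A)
    (h : ¬ (Fintype.card L - 1) ∣ A) : ∑ x : L, w x ^ A = 0 := by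
  classical
  have h2 := Fintype.one_lt_card (α := L)
  obtain ⟨g, hg⟩ := IsCyclic.exists_generator (α := Lˣ)
  have h0 : w (g : L) ^ A ≠ 1 := by
    intro h1
    rw [← map_pow, ← map_one w] at h1
    have h3 := hw h1
    have h4 : g ^ A = 1 := by
      ext
      push_cast
      exact h3
    have h5 := orderOf_dvd_of_pow_eq_one h4
    rw [orderOf_eq_card_of_forall_mem_zpowers hg, Nat.card_eq_fintype_card,
      Fintype.card_units] at h5
    exact h h5
  have h1 : ∑ x : L, w x ^ A = w (g : L) ^ A * ∑ x : L, w x ^ A := by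
    rw [mul_sum]
    refine (Fintype.sum_equiv (Equiv.mulLeft₀ (g : L) g.ne_zero) _ _ fun x => ?_).symm
    rw [← mul_pow, ← map_mul]
    rfl
  have h3 : (w (g : L) ^ A - 1) * ∑ x : L, w x ^ A = 0 := by
    rw [sub_mul, one_mul, ← h1, sub_self]
  exact (mul_eq_zero.mp h3).resolve_left (sub_ne_zero.mpr h0)

lemma sum_chi (hw : Function.Injective w) (B : ℕ) (hB0 : 0 < B) (hB : B < Fintype.card L - 1)
    (K : ℕ) (h : ¬ K ≡ B [MOD Fintype.card L - 1]) :
    ∑ u : L, (w ^ B)⁻¹ u * w u ^ K = 0 := by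
  classical
  have h2 := Fintype.one_lt_card (α := L)
  have h1 : ∀ u : L, (w ^ B)⁻¹ u * w u ^ K = w u ^ (Fintype.card L - 1 - B + K) := by
    intro u
    by_cases hu : u = 0
    · subst hu
      rw [MulChar.map_zero, MulChar.map_zero, zero_mul, zero_pow (by omega)]
    · have h4 : (w ^ B)⁻¹ u = w u ^ (Fintype.card L - 1 - B) := by
        rw [MulChar.inv_apply_eq_inv, Ring.inverse_eq_inv, pow_apply w B hu,
          inv_eq_iff_eq_inv, eq_comm, inv_eq_of_mul_eq_one_left]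
        rw [← pow_add, Nat.add_sub_cancel' hB.le, w_pow_card w hu]
      rw [h4, ← pow_add]
  rw [sum_congr rfl fun u _ => h1 u]
  refine sum_w_pow hw _ (by omega) ?_
  intro h3
  apply h
  have h4 : Fintype.card L - 1 - B + K ≡ 0 [MOD Fintype.card L - 1] :=
    (Nat.modEq_zero_iff_dvd).mpr h3
  have h5 := h4.add_right B
  rw [zero_add] at h5
  have h6 : Fintype.card L - 1 - B + K + B = K + (Fintype.card L - 1) := by omega
  rw [h6] at h5
  have h7 : K + (Fintype.card L - 1) ≡ K [MOD Fintype.card L - 1] := by simp [Nat.ModEq]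
  exact h7.symm.trans h5

end

end Pool.Agent.K9h16.TG
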