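import Pool.Agent.K9h16.TG.Big

/-!
Products of characters of polynomials in two variables: the p-adic estimate.
-/

set_option autoImplicit false

namespace Pool.Agent.K9h16.TG

open Finset Polynomial Pool.Agent.W528.HA Pool.Agent.W528.HB Pool.Agent.W528.HD

/-- `1` if the number is zero -/
def z0 (n : ℕ) : ℕ := if n = 0 then 1 else 0

section

variable {c : ℕ} [Fact c.Prime] {L : Type} [Field L] [Fintype L] [CharP L c]
variable {ι σ : Type} [Fintype ι] [DecidableEq ι] [Fintype σ] [DecidableEq σ]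
variable {w : MulChar L (PadicAlgCl c)} {ψ : AddChar L (PadicAlgCl c)} {F : ℕ}

lemma norm_sum_w (hD : Dat w ψ F) (A : ℕ) :
    ‖∑ x : L, w x ^ A‖ ^ (Fintype.card L - 1)
      ≤ ‖((c : ℕ) : PadicAlgCl c)‖ ^ (F * (Fintype.card L - 1) * z0 A) := by
  have h2 := Fintype.one_lt_card (α := L)
  unfold z0
  split_ifs with h
  · subst h
    simp only [pow_zero, sum_const, card_univ, nsmul_eq_mul, mul_one]
    rw [card_norm hD, ← pow_mul]
  · rw [mul_zero, pow_zero]
    exact pow_le_one₀ (norm_nonneg _) (norm_sum_le _ _ 1 zero_le_one fun x _ => w_norm w x A)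

theorem tm_le (hD : Dat w ψ F) (B : ι → ℕ) (hB : ∀ i, 0 < B i ∧ B i < Fintype.card L - 1)
    (idx : σ → ι) (m1 m2 : σ → ℕ) (co : σ → L) (k : σ → ℕ) (hk : ∀ s, k s < Fintype.card L)
    (M : ℕ)
    (hM : (∀ i, KK idx k i ≡ B i [MOD Fintype.card L - 1]) →
      (Fintype.card L - 1) ∣ ∑ s, m1 s * k s → (Fintype.card L - 1) ∣ ∑ s, m2 s * k s →
      M ≤ ∑ s, tau c F (Fintype.card L - 1) (k s)
        + (F * (Fintype.card L - 1) * z0 (∑ s, m1 s * k s)
          + F * (Fintype.card L - 1) * z0 (∑ s, m2 s * k s))) :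
    ‖Tm w ψ idx m1 m2 co (fun i => w ^ B i) k‖ ^ (Fintype.card L - 1)
      ≤ ‖((c : ℕ) : PadicAlgCl c)‖ ^ M := by
  have h2 := Fintype.one_lt_card (α := L)
  have hρ : 0 ≤ ‖((c : ℕ) : PadicAlgCl c)‖ := norm_nonneg _
  have hz : ∀ v : PadicAlgCl c, v = 0 → ‖v‖ ^ (Fintype.card L - 1)
      ≤ ‖((c : ℕ) : PadicAlgCl c)‖ ^ M := by
    intro v hv
    rw [hv, norm_zero, zero_pow (by omega)]
    exact pow_nonneg hρ _
  by_cases h3 : ∀ i, KK idx k i ≡ B i [MOD Fintype.card L - 1]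
  swap
  · push Not at h3
    obtain ⟨i, hi⟩ := h3
    apply hz
    unfold Tm
    rw [prod_eq_zero (mem_univ i) (sum_chi hD.inj (B i) (hB i).1 (hB i).2 _ hi), zero_mul, mul_zero]
  by_cases h4 : (Fintype.card L - 1) ∣ ∑ s, m1 s * k s
  swap
  · apply hz
    have h5 : 0 < ∑ s, m1 s * k s := Nat.pos_of_ne_zero fun h => h4 (by rw [h]; exact dvd_zero _)
    unfold Tm
    rw [sum_w_pow hD.inj _ h5 h4, zero_mul, mul_zero, mul_zero]
  by_cases h6 : (Fintype.card L - 1) ∣ ∑ s, m2 s * k s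
  swap
  · apply hz
    have h5 : 0 < ∑ s, m2 s * k s := Nat.pos_of_ne_zero fun h => h6 (by rw [h]; exact dvd_zero _)
    unfold Tm
    rw [sum_w_pow hD.inj _ h5 h6, mul_zero, mul_zero, mul_zero]
  have h7 := hM h3 h4 h6
  have hρ1 : ‖((c : ℕ) : PadicAlgCl c)‖ ≤ 1 := norm_natCast_le c
  refine le_trans ?_ (pow_le_pow_of_le_one hρ hρ1 h7)
  unfold Tm
  rw [norm_mul, norm_mul, norm_mul, mul_pow, mul_pow, mul_pow, pow_add, pow_add]
  have e1 : ‖∏ s, (G w ψ (k s) * w (co s) ^ k s)‖ ^ (Fintype.card L - 1)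
      ≤ ‖((c : ℕ) : PadicAlgCl c)‖ ^ (∑ s, tau c F (Fintype.card L - 1) (k s)) := by
    rw [norm_prod, ← prod_pow, ← prod_pow_eq_pow_sum]
    apply prod_le_prod
    · intro s _
      positivity
    · intro s _
      rw [norm_mul, mul_pow]
      refine le_trans (mul_le_of_le_one_right (by positivity) ?_) (G_le hD (k s) (hk s))
      exact pow_le_one₀ (norm_nonneg _) (w_norm w _ _)
  have e2 : ‖∏ i, ∑ u : L, (w ^ B i)⁻¹ u * w u ^ KK idx k i‖ ^ (Fintype.card L - 1) ≤ 1 := by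
    apply pow_le_one₀ (norm_nonneg _)
    rw [norm_prod]
    refine prod_le_one (fun i _ => norm_nonneg _) fun i _ => ?_
    refine norm_sum_le _ _ 1 zero_le_one fun u _ => ?_
    rw [norm_mul]
    exact mul_le_one₀ (mulChar_norm_le _ _) (norm_nonneg _) (w_norm w _ _)
  have e3 := norm_sum_w hD (∑ s, m1 s * k s)
  have e4 := norm_sum_w hD (∑ s, m2 s * k s)
  refine mul_le_mul e1 ?_ (by positivity) (by positivity)
  refine le_trans (mul_le_of_le_one_left (by positivity) e2) ?_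
  exact mul_le_mul e3 e4 (by positivity) (by positivity)

theorem big_est (hD : Dat w ψ F) (B : ι → ℕ) (hB : ∀ i, 0 < B i ∧ B i < Fintype.card L - 1)
    (idx : σ → ι) (m1 m2 : σ → ℕ) (co : σ → L) (M : ℕ)
    (hM : ∀ k : σ → ℕ, (∀ s, k s ≤ Fintype.card L - 1) →
      (∀ i, KK idx k i ≡ B i [MOD Fintype.card L - 1]) →
      (Fintype.card L - 1) ∣ ∑ s, m1 s * k s → (Fintype.card L - 1) ∣ ∑ s, m2 s * k s →
      ∑ i, tau c F (Fintype.card L - 1) (B i) + M ≤ ∑ s, tau c F (Fintype.card L - 1) (k s)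
        + (F * (Fintype.card L - 1) * z0 (∑ s, m1 s * k s)
          + F * (Fintype.card L - 1) * z0 (∑ s, m2 s * k s))) :
    ‖∑ x : L, ∑ y : L, ∏ i, (w ^ B i) (FF idx m1 m2 co i x y)‖ ^ (Fintype.card L - 1)
      ≤ ‖((c : ℕ) : PadicAlgCl c)‖ ^ M := by
  have h2 := Fintype.one_lt_card (α := L)
  have hρ : 0 < ‖((c : ℕ) : PadicAlgCl c)‖ := rho_pos
  have h1 := big_id w ψ hD.inj hD.prim idx m1 m2 co (fun i => w ^ B i)
    (fun i => w_pow_ne hD (hB i).1 (hB i).2)
  have h3 : ‖∑ k ∈ Fintype.piFinset (fun _ : σ => range (Fintype.card L)),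
      Tm w ψ idx m1 m2 co (fun i => w ^ B i) k‖ ^ (Fintype.card L - 1)
      ≤ ‖((c : ℕ) : PadicAlgCl c)‖ ^ (∑ i, tau c F (Fintype.card L - 1) (B i) + M) := by
    apply Pool.Agent.W108.HD.ONE.sum_pow_le _ _ (by omega) (by positivity)
    intro k hk
    rw [Fintype.mem_piFinset] at hk
    refine tm_le hD B hB idx m1 m2 co k (fun s => mem_range.mp (hk s)) _ ?_
    exact hM k (fun s => by have := mem_range.mp (hk s); omega)
  rw [← h1, norm_mul, mul_pow, norm_prod, ← prod_pow, pow_add, ← prod_pow_eq_pow_sum] at h3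
  have h4 : ∏ i, ‖((c : ℕ) : PadicAlgCl c)‖ ^ tau c F (Fintype.card L - 1) (B i)
      ≤ ∏ i, ‖gaussSum (w ^ B i)⁻¹ ψ‖ ^ (Fintype.card L - 1) := by
    apply prod_le_prod
    · intro i _
      positivity
    · intro i _
      exact gauss_ge hD (B i) (hB i).2
  have h5 : 0 < ∏ i, ‖((c : ℕ) : PadicAlgCl c)‖ ^ tau c F (Fintype.card L - 1) (B i) :=
    prod_pos fun i _ => pow_pos hρ _
  refine le_of_mul_le_mul_left ?_ h5
  refine le_trans ?_ h3
  exact mul_le_mul_of_nonneg_right h4 (by positivity)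

/-- reduction to the case of one digit -/
theorem rot_red (F : ℕ) {c Q N : ℕ} (hQ : 0 < Q) (hc : c.Coprime Q) (hN : N ∣ c - 1) (hc1 : 1 ≤ c)
    (hNQ : N ∣ Q) (hN0 : 0 < N)
    (b : ι → ℕ) (hb : ∀ i, b i < N) (idx : σ → ι) (m1 m2 : σ → ℕ)
    (hM : ∀ k : σ → ℕ, (∀ s, k s ≤ Q) → (∀ i, KK idx k i ≡ b i * (Q / N) [MOD Q]) →
      Q ∣ ∑ s, m1 s * k s → Q ∣ ∑ s, m2 s * k s →
      ∑ i, b i * (Q / N) + 2 * Q ≤ ∑ s, k s
        + (Q * z0 (∑ s, m1 s * k s) + Q * z0 (∑ s, m2 s * k s)))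
    (k : σ → ℕ) (hk : ∀ s, k s ≤ Q) (h1 : ∀ i, KK idx k i ≡ b i * (Q / N) [MOD Q])
    (h2 : Q ∣ ∑ s, m1 s * k s) (h3 : Q ∣ ∑ s, m2 s * k s) :
    ∑ i, tau c F Q (b i * (Q / N)) + F * (2 * Q) ≤ ∑ s, tau c F Q (k s)
        + (F * Q * z0 (∑ s, m1 s * k s) + F * Q * z0 (∑ s, m2 s * k s)) := by
  obtain ⟨u, hu⟩ := hNQ
  have hQN : Q / N = u := by rw [hu, Nat.mul_div_cancel_left u hN0]
  simp only [hQN] at hM h1 ⊢
  have hu0 : 0 < u := by
    rcases Nat.eq_zero_or_pos u with h | h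
    · subst h
      omega
    · exact h
  have hfix : ∀ i t, b i * u * c ^ t ≡ b i * u [MOD Q] := by
    intro i t
    have h4 : c ^ t ≡ 1 [MOD N] := by
      have h5 : c ≡ 1 [MOD N] := ((Nat.modEq_iff_dvd' hc1).mpr hN).symm
      simpa using h5.pow t
    have h6 := h4.mul_left' (u * b i)
    have h7 : u * b i * N = Q * b i := by rw [hu]; ring
    rw [h7] at h6
    have h8 := Nat.ModEq.of_mul_right _ h6
    have e1 : u * b i * c ^ t = b i * u * c ^ t := by ring
    have e2 : u * b i * 1 = b i * u := by ring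
    rwa [e1, e2] at h8
  have hlt : ∀ i, b i * u < Q := by
    intro i
    rw [hu]
    exact Nat.mul_lt_mul_of_pos_right (hb i) hu0
  have htau : ∀ i, tau c F Q (b i * u) = F * (b i * u) := by
    intro i
    unfold tau
    rw [sum_congr rfl (g := fun _ => b i * u)]
    · simp
    · intro t _
      unfold rot
      rw [if_neg (hlt i).ne]
      exact (hfix i t).trans (by rw [Nat.ModEq]) |>.symm ▸ Nat.mod_eq_of_lt (hlt i)
  have hA : ∀ (m : σ → ℕ) (t : ℕ), z0 (∑ s, m s * rot c Q t (k s)) = z0 (∑ s, m s * k s) := by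
    intro m t
    unfold z0
    have h5 : (∑ s, m s * rot c Q t (k s) = 0) ↔ (∑ s, m s * k s = 0) := by
      rw [sum_eq_zero_iff, sum_eq_zero_iff]
      refine forall_congr' fun s => forall_congr' fun _ => ?_
      rw [Nat.mul_eq_zero, Nat.mul_eq_zero]
      refine or_congr Iff.rfl ⟨fun h => ?_, fun h => ?_⟩
      · by_contra h6
        exact (rot_pos c Q t (k s) hc (Nat.pos_of_ne_zero h6) (hk s)).ne' h
      · rw [h]
        exact rot_zero c Q t hQ
    simp only [h5]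
  have hsum : ∀ (s' : Finset σ) (m : σ → ℕ) (t : ℕ),
      ∑ s ∈ s', m s * rot c Q t (k s) ≡ (∑ s ∈ s', m s * k s) * c ^ t [MOD Q] := by
    intro s' m t
    rw [sum_mul]
    have : ∀ s ∈ s', m s * rot c Q t (k s) ≡ m s * k s * c ^ t [MOD Q] := by
      intro s _
      have h6 := (rot_modEq c Q t (k s) (hk s)).mul_left (m s)
      rwa [← mul_assoc] at h6
    clear hM h1 h2 h3 hfix hlt htau hA
    induction s' using Finset.induction_on with
    | empty => simp [Nat.ModEq]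
    | insert a s' ha ih =>
      rw [sum_insert ha, sum_insert ha]
      exact (this a (mem_insert_self a s')).add (ih fun s hs => this s (mem_insert_of_mem hs))
  have key : ∀ t ∈ range F, ∑ i, b i * u + 2 * Q ≤ ∑ s, rot c Q t (k s)
        + (Q * z0 (∑ s, m1 s * k s) + Q * z0 (∑ s, m2 s * k s)) := by
    intro t _
    have h9 := hM (fun s => rot c Q t (k s)) (fun s => rot_le c Q t (k s) hQ) ?_ ?_ ?_
    · rw [hA, hA] at h9
      exact h9
    · intro i
      unfold KK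
      have h10 := hsum (univ.filter fun s => idx s = i) (fun _ => 1) t
      simp only [one_mul] at h10
      refine h10.trans ?_
      have h11 := (h1 i).mul_right (c ^ t)
      unfold KK at h11
      exact h11.trans (hfix i t)
    · exact (Nat.modEq_zero_iff_dvd).mp ((hsum univ m1 t).trans
        ((Nat.modEq_zero_iff_dvd).mpr (h2.mul_right _)))
    · exact (Nat.modEq_zero_iff_dvd).mp ((hsum univ m2 t).trans
        ((Nat.modEq_zero_iff_dvd).mpr (h3.mul_right _)))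
  have h12 := sum_le_sum key
  rw [sum_congr rfl fun i _ => htau i]
  simp only [sum_const, card_range, smul_eq_mul, sum_add_distrib] at h12
  rw [sum_comm] at h12
  unfold tau
  calc ∑ i, F * (b i * u) + F * (2 * Q) = F * (∑ i, b i * u + 2 * Q) := by rw [← mul_sum]; ring
    _ ≤ _ := h12
    _ = _ := by ring

end

end Pool.Agent.K9h16.TG
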