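import Pool.Agent.K9h16.TG.Imp

/-!
The expansion of an additive character of a finite field in powers of the Teichmueller character, and
the sizes of its coefficients.
-/

set_option autoImplicit false

namespace Pool.Agent.K9h16.TG

open Finset Polynomial Pool.Agent.W528.HA Pool.Agent.W528.HB Pool.Agent.W528.HD

section

variable {c : ℕ} [Fact c.Prime] {L : Type} [Field L] [Fintype L]

/-- a geometric sum -/
lemma geom {C : Type} [Field C] {a : C} {n : ℕ} (h : a ^ n = 1) :
    ∑ k ∈ range n, a ^ k = by classical exact if a = 1 then (n : C) else 0 := by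
  classical
  split_ifs with h1
  · subst h1
    simp
  · have h2 := mul_geom_sum a n
    rw [h, sub_self] at h2
    exact (mul_eq_zero.mp h2).resolve_left (sub_ne_zero.mpr h1)

/-- the coefficients -/
noncomputable def G (w : MulChar L (PadicAlgCl c)) (ψ : AddChar L (PadicAlgCl c)) (k : ℕ) :
    PadicAlgCl c :=
  if k = 0 then 1 else if k = Fintype.card L - 1 then
    - ((Fintype.card L : ℕ) : PadicAlgCl c) / (((Fintype.card L : ℕ) : PadicAlgCl c) - 1)
  else gaussSum (w ^ k)⁻¹ ψ / (((Fintype.card L : ℕ) : PadicAlgCl c) - 1)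

lemma w_pow_card (w : MulChar L (PadicAlgCl c)) {y : L} (hy : y ≠ 0) :
    w y ^ (Fintype.card L - 1) = 1 := by
  rw [← map_pow, FiniteField.pow_card_sub_one_eq_one y hy, map_one]

lemma w_ne (w : MulChar L (PadicAlgCl c)) {y : L} (hy : y ≠ 0) : w y ≠ 0 := by
  intro h
  have h1 := w_pow_card w hy
  have h2 := Fintype.one_lt_card (α := L)
  rw [h, zero_pow (by omega)] at h1
  exact zero_ne_one h1

lemma card_sub_ne : (((Fintype.card L : ℕ) : PadicAlgCl c) - 1) ≠ 0 := by
  have h2 := Fintype.one_lt_card (α := L)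
  intro h
  have h3 : ((Fintype.card L : ℕ) : PadicAlgCl c) = ((1 : ℕ) : PadicAlgCl c) := by
    rw [Nat.cast_one]
    exact sub_eq_zero.mp h
  have := Nat.cast_injective h3
  omega

lemma pow_apply (w : MulChar L (PadicAlgCl c)) (k : ℕ) {s : L} (hs : s ≠ 0) :
    (w ^ k) s = w s ^ k := by
  rcases Nat.eq_zero_or_pos k with h | h
  · subst h
    rw [pow_zero, pow_zero, MulChar.one_apply (isUnit_iff_ne_zero.mpr hs)]
  · exact MulChar.pow_apply' w (by omega) s

lemma full_sum (w : MulChar L (PadicAlgCl c)) (hw : Function.Injective w)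
    (ψ : AddChar L (PadicAlgCl c)) {t : L} (ht : t ≠ 0) :
    ∑ k ∈ range (Fintype.card L - 1), gaussSum (w ^ k)⁻¹ ψ * w t ^ k
      = (((Fintype.card L : ℕ) : PadicAlgCl c) - 1) * ψ t := by
  classical
  have h2 := Fintype.one_lt_card (α := L)
  have h1 : ∀ k, gaussSum (w ^ k)⁻¹ ψ * w t ^ k
      = ∑ s : L, (if s = 0 then 0 else ψ s * ((w s)⁻¹ * w t) ^ k) := by
    intro k
    unfold gaussSum
    rw [sum_mul]
    refine sum_congr rfl fun s _ => ?_
    split_ifs with hs
    · rw [hs, MulChar.map_zero, zero_mul, zero_mul]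
    · rw [MulChar.inv_apply', pow_apply w k (inv_ne_zero hs), mul_pow]
      have h3 : w s⁻¹ = (w s)⁻¹ := by
        rw [← MulChar.inv_apply', MulChar.inv_apply_eq_inv, Ring.inverse_eq_inv]
      rw [h3]
      ring
  rw [sum_congr rfl fun k _ => h1 k, sum_comm]
  have h4 : ∀ s : L, ∑ k ∈ range (Fintype.card L - 1),
      (if s = 0 then (0 : PadicAlgCl c) else ψ s * ((w s)⁻¹ * w t) ^ k)
      = if s = t then (((Fintype.card L : ℕ) : PadicAlgCl c) - 1) * ψ s else 0 := by
    intro s
    by_cases hs : s = 0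
    · subst hs
      rw [if_neg (Ne.symm ht)]
      simp
    · simp only [if_neg hs]
      rw [← mul_sum, geom (by rw [mul_pow, inv_pow, w_pow_card w hs, w_pow_card w ht]; simp)]
      by_cases hst : s = t
      · subst hst
        rw [if_pos rfl, if_pos (inv_mul_cancel₀ (w_ne w hs)), Nat.cast_sub (by omega),
          Nat.cast_one]
        ring
      · rw [if_neg hst, if_neg, mul_zero]
        intro h
        apply hst
        apply hw
        field_simp [w_ne w hs] at h
        exact h.symm
  rw [sum_congr rfl fun s _ => h4 s, sum_ite_eq' univ t, if_pos (mem_univ _)]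

/-- the expansion -/
theorem psi_exp (w : MulChar L (PadicAlgCl c)) (hw : Function.Injective w)
    (ψ : AddChar L (PadicAlgCl c)) (hψ : ψ.IsPrimitive) (t : L) :
    ψ t = ∑ k ∈ range (Fintype.card L), G w ψ k * w t ^ k := by
  classical
  have h2 := Fintype.one_lt_card (α := L)
  have hne := card_sub_ne (c := c) (L := L)
  by_cases ht : t = 0
  · subst ht
    rw [AddChar.map_zero_eq_one, sum_eq_single 0]
    · simp [G]
    · intro k _ hk
      rw [MulChar.map_zero, zero_pow hk, mul_zero]
    · intro h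
      exact absurd (mem_range.mpr (by omega)) h
  · have h3 := full_sum w hw ψ ht
    obtain ⟨Q, hQ⟩ : ∃ Q, Fintype.card L = Q + 2 := ⟨Fintype.card L - 2, by omega⟩
    have hQ1 : Fintype.card L - 1 = Q + 1 := by omega
    have hψ1 : ψ ≠ 1 := by
      rintro rfl
      exact hψ (a := 1) one_ne_zero (by ext x; simp)
    have hg1 : gaussSum (w ^ 0)⁻¹ ψ = -1 := by
      rw [pow_zero, inv_one, gaussSum_one_left hψ1]
    rw [hQ1, sum_range_succ', hg1, pow_zero, mul_one] at h3
    have h4 : ∑ k ∈ range (Fintype.card L), G w ψ k * w t ^ k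
        = (∑ k ∈ range Q, G w ψ (k + 1) * w t ^ (k + 1)) + 1
          + G w ψ (Q + 1) * w t ^ (Q + 1) := by
      rw [hQ, sum_range_succ, sum_range_succ']
      simp [G]
    have h5 : G w ψ (Q + 1) = - ((Fintype.card L : ℕ) : PadicAlgCl c)
        / (((Fintype.card L : ℕ) : PadicAlgCl c) - 1) := by
      unfold G
      rw [if_neg (by omega), if_pos (by omega)]
    have h6 : w t ^ (Q + 1) = 1 := by
      rw [← hQ1]
      exact w_pow_card w ht
    have h7 : ∀ k ∈ range Q, G w ψ (k + 1) * w t ^ (k + 1)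
        = (gaussSum (w ^ (k + 1))⁻¹ ψ * w t ^ (k + 1))
          / (((Fintype.card L : ℕ) : PadicAlgCl c) - 1) := by
      intro k hk
      rw [mem_range] at hk
      unfold G
      rw [if_neg (by omega), if_neg (by omega)]
      ring
    rw [h4, h5, h6, sum_congr rfl h7, ← sum_div]
    have h8 : ∑ k ∈ range Q, gaussSum (w ^ (k + 1))⁻¹ ψ * w t ^ (k + 1)
        = (((Fintype.card L : ℕ) : PadicAlgCl c) - 1) * ψ t + 1 := by
      rw [← h3]
      ring
    rw [h8]
    field_simp
    ring

end

end Pool.Agent.K9h16.TG
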