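import Pool.Agent.W528.HI.Main
import Pool.Agent.W528.HC.MU
import Pool.Agent.W924.HC.PR
import Pool.Agent.W340.HD.IN
import Pool.Agent.W108.HD.ONE
import Pool.Agent.W940.HD.GE
import Pool.Agent.W551.HD.GN
import Pool.Agent.W816.HI.AT
import Pool.Agent.W15.HI.PT
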