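import Pool.Agent.K9h16.TG.Exp

/-!
The sizes of the coefficients in terms of cyclic shifts of the digits.
-/

set_option autoImplicit false

namespace Pool.Agent.K9h16.TG

open Finset Polynomial Pool.Agent.W528.HA Pool.Agent.W528.HB Pool.Agent.W528.HD

/-- The cyclic shift by `s` digits in base `c` of a number `k ≤ Q = c ^ F - 1`. -/
def rot (c Q s k : ℕ) : ℕ := if k = Q then Q else (k * c ^ s) % Q

/-- The sum of all the shifts. -/
def tau (c F Q k : ℕ) : ℕ := ∑ s ∈ range F, rot c Q s k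

lemma rot_modEq (c Q s k : ℕ) (h : k ≤ Q) : rot c Q s k ≡ k * c ^ s [MOD Q] := by
  unfold rot
  split_ifs with h1
  · subst h1
    have h2 : k ≡ 0 [MOD k] := by simp [Nat.ModEq]
    exact h2.trans (by simpa using (h2.mul_right (c ^ s)).symm)
  · exact Nat.mod_modEq _ _

lemma rot_le (c Q s k : ℕ) (hQ : 0 < Q) : rot c Q s k ≤ Q := by
  unfold rot
  split_ifs with h1
  · exact le_rfl
  · exact (Nat.mod_lt _ hQ).le

lemma rot_pos (c Q s k : ℕ) (hc : c.Coprime Q) (hk : 0 < k) (hkQ : k ≤ Q) :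
    0 < rot c Q s k := by
  unfold rot
  split_ifs with h1
  · omega
  · rw [Nat.pos_iff_ne_zero]
    intro h
    have h2 : Q ∣ k * c ^ s := Nat.dvd_of_mod_eq_zero h
    have h3 : Q ∣ k := (Nat.Coprime.pow_left s hc).symm.dvd_of_dvd_mul_right h2
    have := Nat.le_of_dvd hk h3
    omega

lemma rot_zero (c Q s : ℕ) (hQ : 0 < Q) : rot c Q s 0 = 0 := by
  unfold rot
  rw [if_neg (by omega), zero_mul, Nat.zero_mod]

lemma tau_zero (c F Q : ℕ) (hQ : 0 < Q) : tau c F Q 0 = 0 := by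
  unfold tau
  exact sum_eq_zero fun s _ => rot_zero c Q s hQ

lemma tau_top (c F Q : ℕ) : tau c F Q Q = F * Q := by
  unfold tau rot
  simp

lemma tau_compl (c F Q k : ℕ) (hc : c.Coprime Q) (hk : 0 < k) (hkQ : k < Q) :
    tau c F Q k + tau c F Q (Q - k) = F * Q := by
  unfold tau
  rw [← sum_add_distrib]
  have h : ∀ s ∈ range F, rot c Q s k + rot c Q s (Q - k) = Q := by
    intro s _
    have hQ : 0 < Q := by omega
    have h1 := rot_pos c Q s k hc hk hkQ.le
    have h2 := rot_pos c Q s (Q - k) hc (by omega) (by omega)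
    have h3 : rot c Q s k < Q := by
      unfold rot
      rw [if_neg hkQ.ne]
      exact Nat.mod_lt _ hQ
    have h4 : rot c Q s (Q - k) < Q := by
      unfold rot
      rw [if_neg (by omega)]
      exact Nat.mod_lt _ hQ
    have h5 : rot c Q s k + rot c Q s (Q - k) ≡ 0 [MOD Q] := by
      refine ((rot_modEq c Q s k hkQ.le).add (rot_modEq c Q s (Q - k) (by omega))).trans ?_
      rw [← add_mul, Nat.add_sub_cancel' hkQ.le]
      exact (Nat.modEq_zero_iff_dvd).mpr (Dvd.intro _ rfl)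
    have h6 := (Nat.modEq_zero_iff_dvd).mp h5
    obtain ⟨m, hm⟩ := h6
    have h7 : m < 2 := by
      by_contra h8
      have : Q * 2 ≤ Q * m := Nat.mul_le_mul_left _ (by omega)
      omega
    have h8 : 0 < m := by
      rcases Nat.eq_zero_or_pos m with h9 | h9
      · subst h9
        omega
      · exact h9
    have h9 : m = 1 := by omega
    subst h9
    omega
  rw [sum_congr rfl h]
  simp

section

variable {c : ℕ} [Fact c.Prime] {L : Type} [Field L] [Fintype L]

/-- the data -/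
structure Dat (w : MulChar L (PadicAlgCl c)) (ψ : AddChar L (PadicAlgCl c)) (F : ℕ) : Prop where
  inj : Function.Injective w
  prim : ψ.IsPrimitive
  frob : ∀ y, ψ (y ^ c) = ψ y
  low : ‖((c : ℕ) : PadicAlgCl c)‖ ≤ ‖gaussSum w⁻¹ ψ‖ ^ (c - 1)
  card : Fintype.card L = c ^ F
  pos : 0 < F

lemma cop {F : ℕ} (hF : Fintype.card L = c ^ F) (h : 0 < F) : c.Coprime (Fintype.card L - 1) := by
  have h2 := Fintype.one_lt_card (α := L)
  have h1 : c.Prime := Fact.out
  rw [h1.coprime_iff_not_dvd]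
  intro h3
  have h4 : c ∣ Fintype.card L := by rw [hF]; exact dvd_pow_self c (by omega)
  have h5 := (Nat.dvd_sub_iff_right (by omega : 1 ≤ Fintype.card L) h4).mp h3
  exact absurd (Nat.le_of_dvd one_pos h5) (not_le.mpr h1.one_lt)

variable {w : MulChar L (PadicAlgCl c)} {ψ : AddChar L (PadicAlgCl c)} {F : ℕ}

lemma w_pow_ne (hD : Dat w ψ F) {k : ℕ} (hk : 0 < k) (hk2 : k < Fintype.card L - 1) :
    w ^ k ≠ 1 := by
  classical
  intro h
  obtain ⟨g, hg⟩ := IsCyclic.exists_generator (α := Lˣ)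
  have h1 : (w ^ k) (g : L) = 1 := by rw [h, MulChar.one_apply g.isUnit]
  rw [pow_apply w k g.ne_zero, ← map_pow, ← map_one w] at h1
  have h2 := hD.inj h1
  have h3 : g ^ k = 1 := by
    ext
    push_cast
    exact h2
  have h4 := orderOf_dvd_of_pow_eq_one h3
  rw [orderOf_eq_card_of_forall_mem_zpowers hg, Nat.card_eq_fintype_card, Fintype.card_units] at h4
  have := Nat.le_of_dvd hk h4
  omega

variable [CharP L c]

lemma gauss_ge (hD : Dat w ψ F) (b : ℕ) (hb : b < Fintype.card L - 1) :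
    ‖((c : ℕ) : PadicAlgCl c)‖ ^ (tau c F (Fintype.card L - 1) b)
      ≤ ‖gaussSum (w ^ b)⁻¹ ψ‖ ^ (Fintype.card L - 1) := by
  have hDG : DG := Pool.Agent.W883.HB.DG.main Pool.Agent.W135.HB.SA.main
  have hDI : DI := Pool.Agent.W563.HB.DI.main
  have h2 := Fintype.one_lt_card (α := L)
  have h := norm_gauss hDG hDI w ψ hD.prim hD.frob hD.low (N := Fintype.card L - 1) hD.card
    dvd_rfl hD.pos b hb
  rw [Nat.div_self (by omega), pow_one] at h
  refine le_trans (le_of_eq ?_) h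
  congr 1
  unfold tau rot
  refine sum_congr rfl fun s _ => ?_
  rw [if_neg hb.ne]

lemma card_norm (hD : Dat w ψ F) :
    ‖((Fintype.card L : ℕ) : PadicAlgCl c)‖ = ‖((c : ℕ) : PadicAlgCl c)‖ ^ F := by
  rw [hD.card]
  push_cast
  rw [norm_pow]

lemma rho_pos : 0 < ‖((c : ℕ) : PadicAlgCl c)‖ := by
  rw [norm_pos_iff]
  exact_mod_cast (Fact.out : c.Prime).ne_zero

lemma gauss_le (hD : Dat w ψ F) (b : ℕ) (hb0 : 0 < b) (hb : b < Fintype.card L - 1) :
    ‖gaussSum (w ^ b)⁻¹ ψ‖ ^ (Fintype.card L - 1)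
      ≤ ‖((c : ℕ) : PadicAlgCl c)‖ ^ (tau c F (Fintype.card L - 1) b) := by
  have hGN : GN := Pool.Agent.W551.HD.GN.main
  have h2 := Fintype.one_lt_card (α := L)
  have h3 := (hGN c L ψ hD.prim).2 (w ^ b) (w_pow_ne hD hb0 hb)
  have h4 : w ^ b = (w ^ (Fintype.card L - 1 - b))⁻¹ := by
    rw [eq_inv_iff_mul_eq_one, ← pow_add, Nat.add_sub_cancel' hb.le]
    ext y
    rw [MulChar.pow_apply_coe, MulChar.one_apply_coe]
    exact w_pow_card w y.ne_zero
  have h5 := gauss_ge hD (Fintype.card L - 1 - b) (by omega)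
  rw [← h4] at h5
  have h6 := tau_compl c F (Fintype.card L - 1) b (cop hD.card hD.pos) hb0 hb
  have h7 : (‖gaussSum (w ^ b) ψ‖ * ‖gaussSum (w ^ b)⁻¹ ψ‖) ^ (Fintype.card L - 1)
      = ‖((c : ℕ) : PadicAlgCl c)‖ ^ (tau c F (Fintype.card L - 1) (Fintype.card L - 1 - b))
        * ‖((c : ℕ) : PadicAlgCl c)‖ ^ (tau c F (Fintype.card L - 1) b) := by
    rw [h3, card_norm hD, ← pow_mul, ← pow_add, add_comm, h6]
  rw [mul_pow] at h7
  have h8 : 0 < ‖((c : ℕ) : PadicAlgCl c)‖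
      ^ (tau c F (Fintype.card L - 1) (Fintype.card L - 1 - b)) := pow_pos rho_pos _
  refine le_of_mul_le_mul_left ?_ h8
  rw [← h7]
  exact mul_le_mul_of_nonneg_right h5 (pow_nonneg (norm_nonneg _) _)

lemma G_le (hD : Dat w ψ F) (k : ℕ) (hk : k < Fintype.card L) :
    ‖G w ψ k‖ ^ (Fintype.card L - 1)
      ≤ ‖((c : ℕ) : PadicAlgCl c)‖ ^ (tau c F (Fintype.card L - 1) k) := by
  have h2 := Fintype.one_lt_card (α := L)
  unfold G
  split_ifs with h3 h4
  · rw [h3, tau_zero c F _ (by omega), pow_zero, norm_one, one_pow]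
  · rw [h4, tau_top, norm_div, norm_neg, norm_card_sub_one, div_one, card_norm hD, ← pow_mul]
  · rw [norm_div, norm_card_sub_one, div_one]
    exact gauss_le hD k (by omega) (by omega)

end

end Pool.Agent.K9h16.TG
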